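import Pool.Agent.Y202.U.Stm

/-!
# Variance of the quadratic statistic under the stationary law, and the lower bound
-/

set_option autoImplicit false
set_option linter.unusedSectionVars false
set_option linter.unusedVariables false

namespace Pool.Agent.Y417.U

open Finset Pool.Agent.W788.NV Pool.Agent.Y202.U

section general

variable {S : Type} [Fintype S]

theorem mean_mono {μ f g : S → ℝ} (hμ : ∀ x, 0 ≤ μ x) (h : ∀ x, f x ≤ g x) :
    mean μ f ≤ mean μ g :=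
  sum_le_sum fun x _ => mul_le_mul_of_nonneg_left (h x) (hμ x)

theorem vr_le_mean {μ : S → ℝ} (hμ : IsPr μ) (f : S → ℝ) (a : ℝ) :
    vr μ f ≤ mean μ (fun x => (f x - a) ^ 2) := by
  have h1 : mean μ (fun x => (f x - a) ^ 2) =
      mean μ (fun x => f x ^ 2) - 2 * a * mean μ f + a ^ 2 := by
    have h2 : mean μ (fun x => (f x - a) ^ 2) =
        ∑ x, (μ x * f x ^ 2 - 2 * a * (μ x * f x) + a ^ 2 * μ x) := by
      refine sum_congr rfl fun x _ => ?_
      ring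
    rw [h2, sum_add_distrib, sum_sub_distrib, ← mul_sum, ← mul_sum, hμ.2, mul_one]
    rfl
  rw [h1, vr]
  nlinarith [sq_nonneg (mean μ f - a)]

theorem vr_le_of_osc {μ f : S → ℝ} (hμ : IsPr μ) {D : ℝ} (h : ∀ x y, f x - f y ≤ D) :
    vr μ f ≤ D ^ 2 := by
  have hne : Nonempty S := by
    by_contra hne
    rw [not_nonempty_iff] at hne
    have := hμ.2
    rw [univ_eq_empty, sum_empty] at this
    exact zero_ne_one this
  obtain ⟨a⟩ := hne
  refine (vr_le_mean hμ f (f a)).trans ?_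
  have h1 : mean μ (fun x => (f x - f a) ^ 2) ≤ mean μ (fun _ => D ^ 2) := by
    refine mean_mono hμ.1 fun x => ?_
    have h2 := h x a
    have h3 := h a x
    nlinarith
  refine h1.trans (le_of_eq ?_)
  rw [mean, ← sum_mul, hμ.2, one_mul]

end general

section energy

variable {V : Type} [Fintype V] [DecidableEq V] {G : SimpleGraph V} {q : ℕ} {θ : ℝ} {Δ : ℕ}

theorem SA.q1 (h : SA G q θ Δ) : 1 ≤ q := le_trans (by norm_num) h.q2

theorem energy (hA : SA G q θ Δ) {μ : (V → Fin q) → ℝ} (hμ : IsStat G q θ μ)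
    (F : (V → Fin q) → ℝ) {A s : ℝ} (hs : 0 ≤ s)
    (hb : ∀ u, 0 ≤ u → mean μ (gam (mrate G q θ) (act (V := V) (q := q)) (pt G q θ u F)) ≤
      A * Real.exp (-4 * θ * u)) :
    mean μ (fun y => F y ^ 2) ≤ mean μ (fun y => (pt G q θ s F y) ^ 2) + A / (4 * θ) := by
  have ht0 := hA.t0
  obtain ⟨-, -, hst⟩ := p_law V G q θ (SA.q1 hA) hA.t0 hA.t1 hA.d1
  have hinv := hst μ hμ
  set ψ : ℝ → ℝ := fun τ => mean μ (fun y => (pt G q θ (s - τ) F y) ^ 2) with hψ
  have hψ' : ψ = fun τ => ∑ x, μ x * pt G q θ τ (fun y => (pt G q θ (s - τ) F y) ^ 2) x := by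
    funext τ
    rw [hψ]
    exact (hinv τ _).symm
  have hder : ∀ τ, HasDerivAt ψ (mean μ (gam (mrate G q θ) (act (V := V) (q := q))
      (pt G q θ (s - τ) F))) τ := by
    intro τ
    rw [hψ', ← hinv τ]
    refine HasDerivAt.fun_sum fun x _ => ?_
    exact (p_var _ _ (mrate G q θ) (act (V := V) (q := q)) F x s τ).const_mul (μ x)
  set h : ℝ → ℝ := fun τ => ψ τ - A / (4 * θ) * Real.exp (-4 * θ * (s - τ)) with hh
  have hder2 : ∀ τ, HasDerivAt h (mean μ (gam (mrate G q θ) (act (V := V) (q := q))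
      (pt G q θ (s - τ) F)) - A * Real.exp (-4 * θ * (s - τ))) τ := by
    intro τ
    have h1 : HasDerivAt (fun τ : ℝ => -4 * θ * (s - τ)) (4 * θ) τ := by
      have h2 := ((hasDerivAt_id' τ).const_sub s).const_mul (-4 * θ)
      have e : -4 * θ * (-1) = 4 * θ := by ring
      rwa [e] at h2
    have h3 := (h1.exp).const_mul (A / (4 * θ))
    have e : A / (4 * θ) * (Real.exp (-4 * θ * (s - τ)) * (4 * θ)) =
        A * Real.exp (-4 * θ * (s - τ)) := by
      field_simp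
    rw [e] at h3
    exact (hder τ).sub h3
  have hanti : AntitoneOn h (Set.Icc 0 s) := by
    apply antitoneOn_of_deriv_nonpos (convex_Icc 0 s)
    · exact fun τ _ => (hder2 τ).continuousAt.continuousWithinAt
    · exact fun τ _ => (hder2 τ).differentiableAt.differentiableWithinAt
    · intro τ hτ
      rw [interior_Icc] at hτ
      rw [(hder2 τ).deriv]
      have := hb (s - τ) (by linarith [hτ.2])
      linarith
  have h1 := hanti (Set.left_mem_Icc.mpr hs) (Set.right_mem_Icc.mpr hs) hs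
  have h2 : h s = mean μ (fun y => F y ^ 2) - A / (4 * θ) := by
    rw [hh, hψ]
    simp only [sub_self, mul_zero, Real.exp_zero, mul_one]
    congr 2
    funext y
    rw [pt, p_mk.zero]
  have h3 : h 0 ≤ mean μ (fun y => (pt G q θ s F y) ^ 2) := by
    rw [hh, hψ]
    simp only [sub_zero]
    have hAnn : 0 ≤ A := by
      have h4 := hb 0 le_rfl
      rw [mul_zero, Real.exp_zero, mul_one] at h4
      refine le_trans ?_ h4
      refine sum_nonneg fun x _ => mul_nonneg (hμ.1 x) (sum_nonneg fun e _ => ?_)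
      exact mul_nonneg ((p_tot V G q θ (SA.q1 hA) hA.t0.le hA.t1 hA.d1).1 e) (sq_nonneg _)
    have h5 : 0 ≤ A / (4 * θ) * Real.exp (-4 * θ * s) := by positivity
    linarith
  linarith

theorem vr_le (hA : SA G q θ Δ) {μ : (V → Fin q) → ℝ} (hμ : IsStat G q θ μ)
    (F : (V → Fin q) → ℝ) {A : ℝ}
    (hb : ∀ u, 0 ≤ u → mean μ (gam (mrate G q θ) (act (V := V) (q := q)) (pt G q θ u F)) ≤
      A * Real.exp (-4 * θ * u)) :
    vr μ F ≤ A / (4 * θ) := by
  have ht0 := hA.t0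
  have hpr : IsPr μ := ⟨hμ.1, hμ.2.1⟩
  obtain ⟨-, -, hst⟩ := p_law V G q θ (SA.q1 hA) hA.t0 hA.t1 hA.d1
  have hinv := hst μ hμ
  obtain ⟨c, hc⟩ : ∃ c, ∀ z z', F z - F z' ≤ c := by
    refine ⟨∑ z, ∑ z', |F z - F z'|, fun z z' => ?_⟩
    refine (le_abs_self _).trans ?_
    refine (single_le_sum (f := fun z' => |F z - F z'|) (fun _ _ => abs_nonneg _)
      (mem_univ z')).trans ?_
    exact single_le_sum (f := fun z => ∑ z', |F z - F z'|)
      (fun _ _ => sum_nonneg fun _ _ => abs_nonneg _) (mem_univ z)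
  have h1 : ∀ s, 0 ≤ s → vr μ F ≤ A / (4 * θ) +
      (c * (Fintype.card V * Δ * Real.exp (-θ * s))) ^ 2 := by
    intro s hs
    have h2 := energy hA hμ F hs hb
    have h3 := vr_le_of_osc hpr (f := pt G q θ s F) fun x y =>
      p_osc V G q θ Δ (SA.q1 hA) hA.t0 hA.t1 hA.d1 hA.dD s c F x y hs hc
    rw [vr] at h3 ⊢
    rw [hinv s F] at h3
    linarith
  have hlim : Filter.Tendsto (fun s : ℝ => A / (4 * θ) +
      (c * (Fintype.card V * Δ * Real.exp (-θ * s))) ^ 2) Filter.atTop (nhds (A / (4 * θ))) := by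
    have h4 : Filter.Tendsto (fun s : ℝ => Real.exp (-θ * s)) Filter.atTop (nhds 0) := by
      have h5 : Filter.Tendsto (fun s : ℝ => -θ * s) Filter.atTop Filter.atBot :=
        Filter.tendsto_id.const_mul_atTop_of_neg (by linarith)
      exact Real.tendsto_exp_atBot.comp h5
    have h6 := ((h4.const_mul ((Fintype.card V : ℝ) * Δ)).const_mul c).pow 2
    have h7 := h6.const_add (A / (4 * θ))
    simpa using h7
  refine ge_of_tendsto hlim ?_
  filter_upwards [Filter.eventually_ge_atTop 0] with s hs using h1 s hs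

end energy

section quadratic

variable {V : Type} [Fintype V] [DecidableEq V] {G : SimpleGraph V} {q : ℕ} {θ : ℝ} {Δ : ℕ}

/-- the linear statistic at the site `v` -/
noncomputable def Yc (G : SimpleGraph V) (q : ℕ) (θ T : ℝ) (c : Fin q) (v : V)
    (x : V → Fin q) : ℝ := ∑ w, (dg G w : ℝ) * Wp G q θ T v w * et c w x

theorem act_eq (e : (V × Fin q) ⊕ (V × V)) (x : V → Fin q) :
    act e x = Function.update x (site e) (act e x (site e)) := by
  rcases e with p | p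
  · simp [act, site]
  · simp [act, site]

theorem hh_symm (a b : V) (x : V → Fin q) : hh a b x = hh b a x := by
  rw [hh, hh]
  by_cases h : x a = x b
  · rw [if_pos h, if_pos h.symm]
  · rw [if_neg h, if_neg (fun h' => h h'.symm)]

theorem zz_diff {T : ℝ} (hs : ∀ a b, Wp G q θ T a b = Wp G q θ T b a)
    (h0 : ∀ a, Wp G q θ T a a = 0) (v : V) (d : Fin q) (x : V → Fin q) :
    ZZ G q θ T (Function.update x v d) - ZZ G q θ T x =
      2 * dg G v * (Yc G q θ T d v x - Yc G q θ T (x v) v x) := by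
  have key : ∀ a b, (dg G a : ℝ) * dg G b * Wp G q θ T a b * hh a b (Function.update x v d) -
      (dg G a : ℝ) * dg G b * Wp G q θ T a b * hh a b x =
      (if a = v then (dg G a : ℝ) * dg G b * Wp G q θ T a b * (et d b x - et (x v) b x) else 0) +
      (if b = v then (dg G a : ℝ) * dg G b * Wp G q θ T a b * (et d a x - et (x v) a x) else 0) := by
    intro a b
    by_cases ha : a = v
    · subst ha
      by_cases hb : b = a
      · subst hb
        rw [h0]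
        simp
      · rw [if_pos rfl, if_neg hb, add_zero, ← mul_sub]
        congr 1
        rw [hh, hh, et, et, Function.update_self, Function.update_of_ne hb,
          if_congr (eq_comm (a := d) (b := x b)) rfl rfl,
          if_congr (eq_comm (a := x a) (b := x b)) rfl rfl]
    · by_cases hb : b = v
      · subst hb
        rw [if_neg ha, if_pos rfl, zero_add, ← mul_sub]
        congr 1
        rw [hh, hh, et, et, Function.update_self, Function.update_of_ne ha]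
      · rw [if_neg ha, if_neg hb, hh, hh, Function.update_of_ne ha, Function.update_of_ne hb]
        ring
  rw [ZZ, ZZ, ← sum_sub_distrib]
  simp_rw [← sum_sub_distrib]
  simp_rw [key, sum_add_distrib]
  have e1 : ∑ a, ∑ b, (if a = v then (dg G a : ℝ) * dg G b * Wp G q θ T a b *
      (et d b x - et (x v) b x) else 0) = ∑ b, (dg G v : ℝ) * dg G b * Wp G q θ T v b *
      (et d b x - et (x v) b x) := by
    rw [sum_eq_single v]
    · simp
    · intro a _ ha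
      simp [ha]
    · intro h
      exact absurd (mem_univ v) h
  have e2 : ∑ a, ∑ b, (if b = v then (dg G a : ℝ) * dg G b * Wp G q θ T a b *
      (et d a x - et (x v) a x) else 0) = ∑ b, (dg G v : ℝ) * dg G b * Wp G q θ T v b *
      (et d b x - et (x v) b x) := by
    refine sum_congr rfl fun a _ => ?_
    rw [sum_ite_eq' univ v, if_pos (mem_univ v), hs a v]
    ring
  rw [e1, e2, Yc, Yc, ← sum_sub_distrib, ← two_mul, mul_assoc, mul_sum, mul_sum, mul_sum]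
  refine sum_congr rfl fun w _ => ?_
  ring

theorem zz_sq {T : ℝ} (hA : SA G q θ Δ) (hs : ∀ a b, Wp G q θ T a b = Wp G q θ T b a)
    (h0 : ∀ a, Wp G q θ T a a = 0) (v : V) (d : Fin q) (x : V → Fin q) :
    (ZZ G q θ T (Function.update x v d) - ZZ G q θ T x) ^ 2 ≤
      16 * (Δ : ℝ) ^ 2 * ∑ c, (Yc G q θ T c v x) ^ 2 := by
  rw [zz_diff hs h0]
  have h1 : (Yc G q θ T d v x) ^ 2 ≤ ∑ c, (Yc G q θ T c v x) ^ 2 :=
    single_le_sum (f := fun c => (Yc G q θ T c v x) ^ 2) (fun _ _ => sq_nonneg _) (mem_univ d)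
  have h2 : (Yc G q θ T (x v) v x) ^ 2 ≤ ∑ c, (Yc G q θ T c v x) ^ 2 :=
    single_le_sum (f := fun c => (Yc G q θ T c v x) ^ 2) (fun _ _ => sq_nonneg _)
      (mem_univ (x v))
  set Sg := ∑ c, (Yc G q θ T c v x) ^ 2 with hSg
  have h3 : (Yc G q θ T d v x - Yc G q θ T (x v) v x) ^ 2 ≤ 4 * Sg := by
    nlinarith [sq_nonneg (Yc G q θ T d v x + Yc G q θ T (x v) v x)]
  have h4 : (dg G v : ℝ) ≤ Δ := by exact_mod_cast hA.dD v
  have h5 : (0 : ℝ) ≤ dg G v := Nat.cast_nonneg _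
  have h6 : (dg G v : ℝ) ^ 2 ≤ (Δ : ℝ) ^ 2 := pow_le_pow_left₀ h5 h4 2
  calc (2 * dg G v * (Yc G q θ T d v x - Yc G q θ T (x v) v x)) ^ 2 =
      4 * (dg G v : ℝ) ^ 2 * (Yc G q θ T d v x - Yc G q θ T (x v) v x) ^ 2 := by ring
    _ ≤ 4 * (Δ : ℝ) ^ 2 * (4 * Sg) := by gcongr
    _ = _ := by ring

theorem gam_zz {T : ℝ} (hA : SA G q θ Δ) (hs : ∀ a b, Wp G q θ T a b = Wp G q θ T b a)
    (h0 : ∀ a, Wp G q θ T a a = 0) (x : V → Fin q) :
    gam (mrate G q θ) (act (V := V) (q := q)) (ZZ G q θ T) x ≤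
      16 * (Δ : ℝ) ^ 2 * ∑ v, ∑ c, (Yc G q θ T c v x) ^ 2 := by
  obtain ⟨hr, htot⟩ := p_tot V G q θ (SA.q1 hA) hA.t0.le hA.t1 hA.d1
  rw [gam, mul_sum, ← htot (fun v => 16 * (Δ : ℝ) ^ 2 * ∑ c, (Yc G q θ T c v x) ^ 2)]
  refine sum_le_sum fun e _ => mul_le_mul_of_nonneg_left ?_ (hr e)
  rw [act_eq e x]
  exact zz_sq hA hs h0 (site e) _ x

theorem et_sum (hq : 1 ≤ q) (w w' : V) (x : V → Fin q) :
    ∑ c, et c w x * et c w' x = hh w w' x := by
  have hq0 : (q : ℝ) ≠ 0 := by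
    have : (1 : ℝ) ≤ q := by exact_mod_cast hq
    linarith
  have h1 : ∀ c, et c w x * et c w' x =
      (if x w = c then (if x w' = c then (1 : ℝ) else 0) else 0) -
        1 / (q : ℝ) * (if x w = c then 1 else 0) - 1 / (q : ℝ) * (if x w' = c then 1 else 0) +
        1 / (q : ℝ) * (1 / (q : ℝ)) := by
    intro c
    rw [et, et]
    split_ifs <;> ring
  simp_rw [h1]
  rw [sum_add_distrib, sum_sub_distrib, sum_sub_distrib, ← mul_sum, ← mul_sum, sum_ite_eq,
    sum_ite_eq, sum_ite_eq, sum_const, card_univ, Fintype.card_fin, nsmul_eq_mul]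
  simp only [mem_univ, if_true]
  rw [hh, if_congr (eq_comm (a := x w') (b := x w)) rfl rfl]
  have e : (q : ℝ) * (1 / (q : ℝ) * (1 / (q : ℝ))) = 1 / q := by
    field_simp
  rw [e]
  ring

theorem yc_sum (hq : 1 ≤ q) (T : ℝ) (v : V) (x : V → Fin q) :
    ∑ c, (Yc G q θ T c v x) ^ 2 = ∑ w, ∑ w', ((dg G w : ℝ) * Wp G q θ T v w) *
      ((dg G w' : ℝ) * Wp G q θ T v w') * hh w w' x := by
  have h1 : ∀ c, (Yc G q θ T c v x) ^ 2 = ∑ w, ∑ w', ((dg G w : ℝ) * Wp G q θ T v w) *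
      ((dg G w' : ℝ) * Wp G q θ T v w') * (et c w x * et c w' x) := by
    intro c
    rw [pow_two, Yc, sum_mul_sum]
    refine sum_congr rfl fun w _ => sum_congr rfl fun w' _ => ?_
    ring
  simp_rw [h1]
  rw [sum_comm]
  refine sum_congr rfl fun w _ => ?_
  rw [sum_comm]
  refine sum_congr rfl fun w' _ => ?_
  rw [← mul_sum, et_sum hq]

theorem mean_sum {S ι : Type} [Fintype S] (μ : S → ℝ) (s : Finset ι) (f : ι → S → ℝ) :
    mean μ (fun x => ∑ i ∈ s, f i x) = ∑ i ∈ s, mean μ (f i) := by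
  simp only [mean]
  rw [sum_comm]
  refine sum_congr rfl fun x _ => ?_
  rw [mul_sum]

theorem mean_const_mul {S : Type} [Fintype S] (μ : S → ℝ) (a : ℝ) (f : S → ℝ) :
    mean μ (fun x => a * f x) = a * mean μ f := by
  simp only [mean]
  rw [mul_sum]
  refine sum_congr rfl fun x _ => ?_
  ring

theorem mean_gam (hA : SA G q θ Δ) {μ : (V → Fin q) → ℝ} (hμ : IsStat G q θ μ) {T : ℝ}
    (hs : ∀ a b, Wp G q θ T a b = Wp G q θ T b a) (h0 : ∀ a, Wp G q θ T a a = 0)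
    (hn : ∀ a b, 0 ≤ Wp G q θ T a b) (hK0 : ∀ a b, 0 ≤ mean μ (hh (q := q) a b))
    (hK1 : ∀ a, ∑ b, mean μ (hh (q := q) a b) ≤ Δ ^ 2 / θ) :
    mean μ (gam (mrate G q θ) (act (V := V) (q := q)) (ZZ G q θ T)) ≤
      16 * (Δ : ℝ) ^ 6 / θ * WW G q θ T := by
  have hd : ∀ w, (0 : ℝ) ≤ dg G w ∧ (dg G w : ℝ) ≤ Δ := fun w =>
    ⟨Nat.cast_nonneg _, by exact_mod_cast hA.dD w⟩
  have hΔ : (0 : ℝ) ≤ Δ := Nat.cast_nonneg _
  refine (mean_mono hμ.1 fun x => gam_zz hA hs h0 x).trans ?_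
  rw [mean_const_mul, mean_sum]
  have h1 : ∀ v, mean μ (fun x => ∑ c, (Yc G q θ T c v x) ^ 2) ≤
      (Δ : ℝ) ^ 2 * (Δ ^ 2 / θ) * ∑ w, (Wp G q θ T v w) ^ 2 := by
    intro v
    have h2 : (fun x => ∑ c, (Yc G q θ T c v x) ^ 2) = fun x => ∑ w, ∑ w',
        ((dg G w : ℝ) * Wp G q θ T v w) * ((dg G w' : ℝ) * Wp G q θ T v w') * hh w w' x :=
      funext fun x => yc_sum (SA.q1 hA) T v x
    rw [h2, mean_sum]
    have h3 : ∀ w, mean μ (fun x => ∑ w', ((dg G w : ℝ) * Wp G q θ T v w) *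
        ((dg G w' : ℝ) * Wp G q θ T v w') * hh w w' x) =
        ∑ w', ((dg G w : ℝ) * Wp G q θ T v w) * ((dg G w' : ℝ) * Wp G q θ T v w') *
          mean μ (hh (q := q) w w') := by
      intro w
      rw [mean_sum]
      refine sum_congr rfl fun w' _ => ?_
      rw [← mean_const_mul]
    simp_rw [h3]
    have h4 : ∀ w w', ((dg G w : ℝ) * Wp G q θ T v w) * ((dg G w' : ℝ) * Wp G q θ T v w') *
        mean μ (hh (q := q) w w') ≤ (Δ : ℝ) ^ 2 / 2 * ((Wp G q θ T v w) ^ 2 *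
          mean μ (hh (q := q) w w')) + (Δ : ℝ) ^ 2 / 2 * ((Wp G q θ T v w') ^ 2 *
          mean μ (hh (q := q) w' w)) := by
      intro w w'
      have hsym : mean μ (hh (q := q) w' w) = mean μ (hh (q := q) w w') := by
        congr 1
        funext x
        exact hh_symm w' w x
      rw [hsym]
      have hK := hK0 w w'
      set K := mean μ (hh (q := q) w w')
      have a1 := hn v w
      have a2 := hn v w'
      set P := Wp G q θ T v w
      set Q := Wp G q θ T v w'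
      obtain ⟨b1, b2⟩ := hd w
      obtain ⟨b3, b4⟩ := hd w'
      have c1 : (dg G w : ℝ) * dg G w' ≤ Δ * Δ := mul_le_mul b2 b4 b3 hΔ
      have c2 : (dg G w : ℝ) * dg G w' * (P * Q * K) ≤ Δ * Δ * (P * Q * K) :=
        mul_le_mul_of_nonneg_right c1 (by positivity)
      have c3 : P * Q ≤ (P ^ 2 + Q ^ 2) / 2 := by nlinarith [sq_nonneg (P - Q)]
      have c4 : P * Q * K ≤ (P ^ 2 + Q ^ 2) / 2 * K := mul_le_mul_of_nonneg_right c3 hK
      have c5 : (Δ : ℝ) * Δ * (P * Q * K) ≤ Δ * Δ * ((P ^ 2 + Q ^ 2) / 2 * K) :=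
        mul_le_mul_of_nonneg_left c4 (by positivity)
      calc (dg G w : ℝ) * P * (dg G w' * Q) * K = (dg G w : ℝ) * dg G w' * (P * Q * K) := by ring
        _ ≤ Δ * Δ * ((P ^ 2 + Q ^ 2) / 2 * K) := c2.trans c5
        _ = _ := by ring
    refine (sum_le_sum fun w _ => sum_le_sum fun w' _ => h4 w w').trans ?_
    simp_rw [sum_add_distrib]
    have h5 : ∑ w, ∑ w', (Δ : ℝ) ^ 2 / 2 * ((Wp G q θ T v w') ^ 2 *
        mean μ (hh (q := q) w' w)) = ∑ w, ∑ w', (Δ : ℝ) ^ 2 / 2 * ((Wp G q θ T v w) ^ 2 *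
        mean μ (hh (q := q) w w')) := sum_comm
    rw [h5, ← two_mul, mul_sum, mul_sum]
    refine sum_le_sum fun w _ => ?_
    have h6 := hK1 w
    have h7 : ∑ w', (Δ : ℝ) ^ 2 / 2 * ((Wp G q θ T v w) ^ 2 * mean μ (hh (q := q) w w')) =
        (Δ : ℝ) ^ 2 / 2 * (Wp G q θ T v w) ^ 2 * ∑ w', mean μ (hh (q := q) w w') := by
      rw [mul_sum]
      refine sum_congr rfl fun w' _ => ?_
      ring
    rw [h7]
    have h8 : (Δ : ℝ) ^ 2 / 2 * (Wp G q θ T v w) ^ 2 * ∑ w', mean μ (hh (q := q) w w') ≤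
        (Δ : ℝ) ^ 2 / 2 * (Wp G q θ T v w) ^ 2 * (Δ ^ 2 / θ) :=
      mul_le_mul_of_nonneg_left h6 (by positivity)
    calc 2 * ((Δ : ℝ) ^ 2 / 2 * (Wp G q θ T v w) ^ 2 * ∑ w', mean μ (hh (q := q) w w')) ≤
        2 * ((Δ : ℝ) ^ 2 / 2 * (Wp G q θ T v w) ^ 2 * (Δ ^ 2 / θ)) :=
          mul_le_mul_of_nonneg_left h8 (by norm_num)
      _ = _ := by ring
  have h9 : ∑ v, mean μ (fun x => ∑ c, (Yc G q θ T c v x) ^ 2) ≤
      (Δ : ℝ) ^ 2 * (Δ ^ 2 / θ) * WW G q θ T := by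
    rw [WW, mul_sum]
    exact sum_le_sum fun v _ => h1 v
  calc 16 * (Δ : ℝ) ^ 2 * ∑ v, mean μ (fun x => ∑ c, (Yc G q θ T c v x) ^ 2) ≤
      16 * (Δ : ℝ) ^ 2 * ((Δ : ℝ) ^ 2 * (Δ ^ 2 / θ) * WW G q θ T) :=
        mul_le_mul_of_nonneg_left h9 (by positivity)
    _ = _ := by ring

theorem ww_nonneg (T : ℝ) : 0 ≤ WW G q θ T :=
  sum_nonneg fun _ _ => sum_nonneg fun _ _ => sq_nonneg _

theorem ww_le (hA : SA G q θ Δ) (T : ℝ) : WW G q θ T ≤
    ∑ a, ∑ b, (dg G a : ℝ) * dg G b * (Wp G q θ T a b) ^ 2 := by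
  rw [WW]
  refine sum_le_sum fun a _ => sum_le_sum fun b _ => ?_
  have h1 : (1 : ℝ) ≤ dg G a := by exact_mod_cast hA.d1 a
  have h2 : (1 : ℝ) ≤ dg G b := by exact_mod_cast hA.d1 b
  have h3 : (1 : ℝ) ≤ (dg G a : ℝ) * dg G b := by nlinarith
  nlinarith [sq_nonneg (Wp G q θ T a b)]

theorem le_ww (hA : SA G q θ Δ) (T : ℝ) :
    ∑ a, ∑ b, (dg G a : ℝ) * dg G b * (Wp G q θ T a b) ^ 2 ≤ (Δ : ℝ) ^ 2 * WW G q θ T := by
  rw [WW, mul_sum]
  refine sum_le_sum fun a _ => ?_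
  rw [mul_sum]
  refine sum_le_sum fun b _ => ?_
  have h1 : (dg G a : ℝ) ≤ Δ := by exact_mod_cast hA.dD a
  have h2 : (dg G b : ℝ) ≤ Δ := by exact_mod_cast hA.dD b
  have h3 : (dg G a : ℝ) * dg G b ≤ Δ * Δ :=
    mul_le_mul h1 h2 (Nat.cast_nonneg _) (Nat.cast_nonneg _)
  rw [pow_two (Δ : ℝ)]
  exact mul_le_mul_of_nonneg_right h3 (sq_nonneg _)

end quadratic

theorem l5 (h2 : S_W2) (hB : S_WB) (hG : S_GE) (hL2 : S_L2) (hz : S_LZ) : S_L5 := by
  intro q θ Δ hq ht0 ht1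
  refine ⟨4 * (Δ : ℝ) ^ 8 / θ ^ 2, by positivity, ?_⟩
  intro V _ _ G μ hA hμ t ht
  obtain ⟨w1, w2, w3, -, -⟩ := h2 V G q θ Δ hA
  obtain ⟨k1, k2, -⟩ := hL2 V G q θ Δ hA μ hμ
  have hb : ∀ u, 0 ≤ u → mean μ (gam (mrate G q θ) (act (V := V) (q := q))
      (pt G q θ u (ZZ G q θ t))) ≤
      (16 * (Δ : ℝ) ^ 8 / θ * WW G q θ t) * Real.exp (-4 * θ * u) := by
    intro u hu
    have e1 : gam (mrate G q θ) (act (V := V) (q := q)) (pt G q θ u (ZZ G q θ t)) =
        gam (mrate G q θ) (act (V := V) (q := q)) (ZZ G q θ (t + u)) := by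
      funext x
      rw [gam, gam]
      refine sum_congr rfl fun e _ => ?_
      rw [hz V G q θ Δ hA t u ht hu, hz V G q θ Δ hA t u ht hu, add_sub_add_right_eq_sub]
    rw [e1]
    have e2 := mean_gam hA hμ (T := t + u) (fun a b => w2 _ a b) (fun a => w3 _ a)
      (fun a b => w1 _ _ (by linarith)) k1 k2
    refine e2.trans ?_
    have e3 := (hB V G q θ Δ hA t u ht hu).2.2.1
    have e4 := (ww_le hA (t + u)).trans (e3.trans (mul_le_mul_of_nonneg_left (le_ww hA t)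
      (Real.exp_pos _).le))
    calc 16 * (Δ : ℝ) ^ 6 / θ * WW G q θ (t + u) ≤
        16 * (Δ : ℝ) ^ 6 / θ * (Real.exp (-4 * θ * u) * ((Δ : ℝ) ^ 2 * WW G q θ t)) :=
          mul_le_mul_of_nonneg_left e4 (by positivity)
      _ = _ := by ring
  refine (vr_le hA hμ _ hb).trans (le_of_eq ?_)
  field_simp
  ring

theorem lb (hB : S_WB) (hL1 : S_L1) (hL3 : S_L3) (hL4 : S_L4) (hL5 : S_L5) : S_LB := by
  intro q θ Δ hq ht0 ht1
  obtain ⟨C1, hC1, h1⟩ := hL1 q θ Δ hq ht0 ht1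
  obtain ⟨c, C3, hc, hC3, h3⟩ := hL3 q θ Δ hq ht0 ht1
  obtain ⟨C4, hC4, h4⟩ := hL4 q θ Δ hq ht0 ht1
  obtain ⟨C5, hC5, h5⟩ := hL5 q θ Δ hq ht0 ht1
  set a : ℝ := 2 * (C4 * (1 / c + 1) + C5 / c) with ha
  have ha0 : 0 ≤ a := by positivity
  refine ⟨(2 * C3 * C1 + (4 * a + 8 * C4 * C1 + 1)) / c, by positivity, ?_⟩
  intro V _ _ G x0 μ hA hμ t δ ht hδ hδ1 htv
  obtain ⟨hpr, -, -⟩ := p_law V G q θ (SA.q1 hA) hA.t0 hA.t1 hA.d1
  have hlaw := hpr x0 t ht
  have hμp : IsPr μ := ⟨hμ.1, hμ.2.1⟩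
  have g1 := h1 V G x0 μ hA hμ t ht
  obtain ⟨g3, g3'⟩ := h3 V G x0 μ hA hμ t ht
  have g4 := h4 V G x0 hA t ht
  have g5 := h5 V G μ hA hμ t ht
  have gc := p_chb (V → Fin q) (law G q θ x0 t) μ (ZZ G q θ t) hlaw hμp
  have hBB : 0 ≤ BB G q θ x0 t := sum_nonneg fun _ _ => sum_nonneg fun _ _ => sq_nonneg _
  have hWW : 0 ≤ WW G q θ t := ww_nonneg t
  set B := BB G q θ x0 t
  set W := WW G q θ t
  set R := RR G q θ x0 t
  set s := mean μ (ZZ G q θ t) - mean (law G q θ x0 t) (ZZ G q θ t) with hs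
  have hs2 : (mean (law G q θ x0 t) (ZZ G q θ t) - mean μ (ZZ G q θ t)) ^ 2 = s ^ 2 := by
    rw [hs]
    ring
  rw [hs2] at gc
  have hδ' : δ ≤ 1 - tv (law G q θ x0 t) μ := by linarith
  have gB : δ * B ≤ C1 := (mul_le_mul_of_nonneg_right hδ' hBB).trans g1
  have gs : δ * s ^ 2 ≤ 2 * (C4 * (W + B + R) + C5 * W) := by
    have := mul_le_mul_of_nonneg_right hδ' (sq_nonneg s)
    linarith
  set Y := c * W + R with hY
  have hY0 : 0 ≤ Y := by positivity
  have hWY : W ≤ Y / c := by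
    rw [le_div_iff₀ hc, hY]
    linarith
  have hRY : R ≤ Y := by
    have : 0 ≤ c * W := by positivity
    linarith
  have gs2 : δ * s ^ 2 ≤ a * Y + 2 * C4 * B := by
    have e1 : C4 * (W + B + R) ≤ C4 * (Y / c + B + Y) :=
      mul_le_mul_of_nonneg_left (by linarith) hC4
    have e2 : C5 * W ≤ C5 * (Y / c) := mul_le_mul_of_nonneg_left hWY hC5
    have e3 : a * Y + 2 * C4 * B = 2 * (C4 * (Y / c + B + Y) + C5 * (Y / c)) := by
      rw [ha]
      field_simp
      ring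
    rw [e3]
    linarith
  have hYfin : δ * Y ≤ 2 * C3 * C1 + (4 * a + 8 * C4 * C1 + 1) := by
    by_cases hcase : Y ≤ 2 * C3 * B
    · have e1 : δ * Y ≤ δ * (2 * C3 * B) := mul_le_mul_of_nonneg_left hcase hδ.le
      have e2 : δ * (2 * C3 * B) = 2 * C3 * (δ * B) := by ring
      have e3 : 2 * C3 * (δ * B) ≤ 2 * C3 * C1 := mul_le_mul_of_nonneg_left gB (by positivity)
      have e4 : 0 ≤ 4 * a + 8 * C4 * C1 + 1 := by positivity
      linarith
    · push Not at hcase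
      have e1 : Y / 2 ≤ s := by linarith
      have e2 : (Y / 2) ^ 2 ≤ s ^ 2 := pow_le_pow_left₀ (by positivity) e1 2
      have e3 : δ * (Y / 2) ^ 2 ≤ a * Y + 2 * C4 * B :=
        (mul_le_mul_of_nonneg_left e2 hδ.le).trans gs2
      have e4 : (δ * Y) ^ 2 ≤ 4 * a * (δ * Y) + 8 * C4 * C1 := by
        have e5 : δ * (δ * (Y / 2) ^ 2) ≤ δ * (a * Y + 2 * C4 * B) :=
          mul_le_mul_of_nonneg_left e3 hδ.le
        have e6 : C4 * (δ * B) ≤ C4 * C1 := mul_le_mul_of_nonneg_left gB hC4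
        have e7 : δ * (δ * (Y / 2) ^ 2) = (δ * Y) ^ 2 / 4 := by ring
        have e8 : δ * (a * Y + 2 * C4 * B) = a * (δ * Y) + 2 * (C4 * (δ * B)) := by ring
        rw [e7, e8] at e5
        linarith
      set X := δ * Y with hX
      by_contra hcon
      push Not at hcon
      have e7 : 0 ≤ 2 * C3 * C1 := by positivity
      have e8 : 4 * a + 8 * C4 * C1 + 1 < X := by linarith
      have e9 : 0 ≤ 8 * C4 * C1 := by positivity
      have e10 : 1 < X := by linarith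
      have f1 : (4 * a + 8 * C4 * C1 + 1) * X < X * X :=
        mul_lt_mul_of_pos_right e8 (by linarith)
      have f2 : 8 * C4 * C1 * 1 ≤ 8 * C4 * C1 * X := mul_le_mul_of_nonneg_left e10.le e9
      rw [pow_two] at e4
      have f3 : (4 * a + 8 * C4 * C1 + 1) * X = 4 * a * X + 8 * C4 * C1 * X + X := by ring
      rw [f3] at f1
      linarith
  rw [div_div, le_div_iff₀ (by positivity)]
  have e1 : W * (c * δ) ≤ δ * Y := by
    have e2 : 0 ≤ δ * R := by positivity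
    have e3 : δ * Y = W * (c * δ) + δ * R := by rw [hY]; ring
    linarith
  linarith

end Pool.Agent.Y417.U
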